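import Mathlib
import Pool.Agent.REV.StmtsV

set_option autoImplicit false

/-!
# Squad REV, row LMM: limit of monotone functions with convergent integrals
-/

namespace Pool.Agent.REV.H95

open Set MeasureTheory Filter
open scoped Topology
open Pool.Agent.REV

/-- slope -/
noncomputable def slp (E : ℝ → ℝ) (a b : ℝ) : ℝ := (E b - E a) / (b - a)

theorem lmm_int {E : ℝ → ℝ} {Y : ℕ → ℝ → ℝ} (h : Lmt E Y) (k : ℕ) {a b : ℝ} (ha : 0 ≤ a)
    (hab : a ≤ b) : IntervalIntegrable (Y k) volume a b :=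
  ((h.1 k).mono (by rw [uIcc_of_le hab]; exact fun x hx => ha.trans hx.1)).intervalIntegrable

theorem lmm_tend {E : ℝ → ℝ} {Y : ℕ → ℝ → ℝ} (h : Lmt E Y) {a b : ℝ} (ha : 0 ≤ a)
    (hab : a < b) :
    Tendsto (fun k => (∫ s in a..b, Y k s) / (b - a)) atTop (𝓝 (slp E a b)) := by
  have h1 := (h.2.2 b (ha.trans hab.le)).sub (h.2.2 a ha)
  have h2 := h1.div_const (b - a)
  refine h2.congr (fun k => ?_)
  rw [intervalIntegral.integral_interval_sub_left (lmm_int h k le_rfl (ha.trans hab.le))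
    (lmm_int h k le_rfl ha)]

theorem lmm_bd {E : ℝ → ℝ} {Y : ℕ → ℝ → ℝ} (h : Lmt E Y) (k : ℕ) {a b : ℝ} (ha : 0 ≤ a)
    (hab : a < b) : Y k a ≤ (∫ s in a..b, Y k s) / (b - a) ∧
    (∫ s in a..b, Y k s) / (b - a) ≤ Y k b := by
  have hpos : 0 < b - a := sub_pos.2 hab
  have hi := lmm_int h k ha hab.le
  constructor
  · rw [le_div_iff₀ hpos]
    have h1 := intervalIntegral.integral_mono_on (μ := volume) (f := fun _ => Y k a) hab.le
      intervalIntegrable_const hi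
      (fun x hx => (h.1 k) ha (mem_Ici.2 (ha.trans hx.1)) hx.1)
    rw [intervalIntegral.integral_const, smul_eq_mul] at h1
    linarith
  · rw [div_le_iff₀ hpos]
    have h1 := intervalIntegral.integral_mono_on (μ := volume) (g := fun _ => Y k b) hab.le hi
      intervalIntegrable_const
      (fun x hx => (h.1 k) (mem_Ici.2 (ha.trans hx.1)) (mem_Ici.2 (ha.trans hab.le)) hx.2)
    rw [intervalIntegral.integral_const, smul_eq_mul] at h1
    linarith

theorem slp_le {E : ℝ → ℝ} {Y : ℕ → ℝ → ℝ} (h : Lmt E Y) {a b c : ℝ} (ha : 0 ≤ a)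
    (hab : a < b) (hbc : b < c) : slp E a b ≤ slp E b c :=
  le_of_tendsto_of_tendsto' (lmm_tend h ha hab) (lmm_tend h (ha.trans hab.le) hbc)
    (fun k => (lmm_bd h k ha hab).2.trans (lmm_bd h k (ha.trans hab.le) hbc).1)

theorem slp_nonneg {E : ℝ → ℝ} {Y : ℕ → ℝ → ℝ} (h : Lmt E Y) {a b : ℝ} (ha : 0 ≤ a)
    (hab : a < b) : 0 ≤ slp E a b :=
  ge_of_tendsto' (lmm_tend h ha hab) (fun k => (h.2.1 k a ha).trans (lmm_bd h k ha hab).1)

/-- right derivative -/
noncomputable def yy (E : ℝ → ℝ) (a : ℝ) : ℝ := sInf ((fun b => slp E a b) '' Ioi a)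

theorem yy_le {E : ℝ → ℝ} {Y : ℕ → ℝ → ℝ} (h : Lmt E Y) {a b : ℝ} (ha : 0 ≤ a)
    (hab : a < b) : yy E a ≤ slp E a b := by
  refine csInf_le ⟨0, ?_⟩ ⟨b, hab, rfl⟩
  rintro _ ⟨c, hc, rfl⟩
  exact slp_nonneg h ha hc

theorem yy_nonneg {E : ℝ → ℝ} {Y : ℕ → ℝ → ℝ} (h : Lmt E Y) {a : ℝ} (ha : 0 ≤ a) :
    0 ≤ yy E a := by
  refine le_csInf ⟨_, a + 1, by simp, rfl⟩ ?_
  rintro _ ⟨c, hc, rfl⟩
  exact slp_nonneg h ha hc

theorem le_yy {E : ℝ → ℝ} {Y : ℕ → ℝ → ℝ} (h : Lmt E Y) {a b : ℝ} (ha : 0 ≤ a)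
    (hab : a < b) : slp E a b ≤ yy E b := by
  refine le_csInf ⟨_, b + 1, by simp, rfl⟩ ?_
  rintro _ ⟨c, hc, rfl⟩
  exact slp_le h ha hab hc

theorem yy_mono {E : ℝ → ℝ} {Y : ℕ → ℝ → ℝ} (h : Lmt E Y) : MonotoneOn (yy E) (Ici 0) := by
  intro a ha b _ hab
  rcases eq_or_lt_of_le hab with h1 | h1
  · rw [h1]
  · exact (yy_le h ha h1).trans (le_yy h ha h1)

theorem yy_tend {E : ℝ → ℝ} {Y0 Y : ℕ → ℝ → ℝ} (h0 : Lmt E Y0) (h : Lmt E Y) {b : ℝ}
    (hb : 0 < b) (hc : ContinuousWithinAt (yy E) (Ioi 0) b) :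
    Tendsto (fun k => Y k b) atTop (𝓝 (yy E b)) := by
  rw [tendsto_order]
  constructor
  · intro a' ha'
    -- a point on the left
    have h1 : ∀ᶠ x in 𝓝[Ioi 0] b, a' < yy E x := hc.eventually_const_lt ha'
    have h2 : ∀ᶠ x in 𝓝 b, a' < yy E x := by
      rw [(isOpen_Ioi (a := (0 : ℝ))).nhdsWithin_eq hb] at h1
      exact h1
    have h3 : ∀ᶠ x in 𝓝[<] b, a' < yy E x := h2.filter_mono nhdsWithin_le_nhds
    have h4 : ∀ᶠ x in 𝓝[<] b, x < b := self_mem_nhdsWithin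
    have h5 : ∀ᶠ x in 𝓝[<] b, 0 < x := (lt_mem_nhds hb).filter_mono nhdsWithin_le_nhds
    obtain ⟨x, hx3, hx4, hx5⟩ := (h3.and (h4.and h5)).exists
    have h6 : a' < slp E x b := lt_of_lt_of_le hx3 (yy_le h0 hx5.le hx4)
    filter_upwards [(lmm_tend h hx5.le hx4).eventually_const_lt h6] with k hk
    exact lt_of_lt_of_le hk (lmm_bd h k hx5.le hx4).2
  · intro a' ha'
    have hne : ((fun c => slp E b c) '' Ioi b).Nonempty := ⟨_, b + 1, by simp, rfl⟩
    obtain ⟨_, ⟨c, hc1, rfl⟩, hc2⟩ := exists_lt_of_csInf_lt hne ha'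
    filter_upwards [(lmm_tend h hb.le hc1).eventually_lt_const hc2] with k hk
    exact lt_of_le_of_lt (lmm_bd h k hb.le hc1).1 hk

theorem lmm : LmmStmt := by
  intro E Y0 h0
  have hmono := yy_mono h0
  refine ⟨yy E, {x | x ∈ Ioi 0 ∧ ¬ContinuousWithinAt (yy E) (Ioi 0) x},
    (hmono.mono Ioi_subset_Ici_self).countable_not_continuousWithinAt,
    hmono.mono Ioi_subset_Ici_self, fun b hb => yy_nonneg h0 hb.le, ?_, ?_⟩
  · intro b hb
    have hint : IntervalIntegrable (yy E) volume 0 b :=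
      (hmono.mono (by rw [uIcc_of_le hb]; exact fun x hx => hx.1)).intervalIntegrable
    refine ⟨hint, ?_⟩
    refine tendsto_nhds_unique (h0.2.2 b hb) ?_
    have hT := lmm_tend h0 hb (lt_add_one b)
    have hev := hT.eventually_lt_const (lt_add_one (slp E b (b + 1)))
    refine intervalIntegral.tendsto_integral_filter_of_dominated_convergence
      (fun _ => slp E b (b + 1) + 1) ?_ ?_ intervalIntegrable_const ?_
    · refine Eventually.of_forall fun k => ?_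
      have := (lmm_int h0 k le_rfl hb).aestronglyMeasurable
      rwa [← uIoc_of_le hb] at this
    · filter_upwards [hev] with k hk
      refine Eventually.of_forall fun x hx => ?_
      rw [uIoc_of_le hb] at hx
      rw [Real.norm_eq_abs, abs_of_nonneg (h0.2.1 k x hx.1.le)]
      have h1 : Y0 k x ≤ Y0 k b := (h0.1 k) (mem_Ici.2 hx.1.le) (mem_Ici.2 hb) hx.2
      have h2 := (lmm_bd h0 k hb (lt_add_one b)).1
      linarith
    · have hnull : volume {x | x ∈ Ioi 0 ∧ ¬ContinuousWithinAt (yy E) (Ioi 0) x} = 0 :=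
        Set.Countable.measure_zero
          (hmono.mono Ioi_subset_Ici_self).countable_not_continuousWithinAt _
      have hae : ∀ᵐ x : ℝ, x ∉ {x | x ∈ Ioi 0 ∧ ¬ContinuousWithinAt (yy E) (Ioi 0) x} :=
        measure_eq_zero_iff_ae_notMem.1 hnull
      filter_upwards [hae] with x hx hx2
      rw [uIoc_of_le hb] at hx2
      by_cases hc : ContinuousWithinAt (yy E) (Ioi 0) x
      · exact yy_tend h0 h0 hx2.1 hc
      · exact absurd ⟨hx2.1, hc⟩ hx
  · intro Y hY b hb hbD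
    by_cases hc : ContinuousWithinAt (yy E) (Ioi 0) b
    · exact yy_tend h0 hY hb hc
    · exact absurd ⟨hb, hc⟩ hbD

end Pool.Agent.REV.H95
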