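import Mathlib
import Pool.Agent.REV.StmtsA2

/-!
# REV, row LOC (helper95): local monotonicity near `t = 0`
-/

set_option autoImplicit false

open MeasureTheory Set

namespace Pool.Agent.REV.H95

open Pool.Agent.REV

theorem powd {x y M L : ℝ} (hx : 0 ≤ x) (hy : 0 ≤ y) (hxM : x ≤ M) (hyM : y ≤ M) (hL : 0 ≤ L)
    (h : x ≤ y + L) (i : ℕ) : x ^ (i + 1) ≤ y ^ (i + 1) + ((i : ℝ) + 1) * M ^ i * L := by
  have hM : 0 ≤ M := hx.trans hxM
  induction i with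
  | zero =>
    simp only [zero_add, pow_one, Nat.cast_zero, pow_zero, mul_one, one_mul]
    exact h
  | succ i ih =>
    have h1 : 0 ≤ y ^ (i + 1) := pow_nonneg hy _
    have h2 : y ^ (i + 1) ≤ M ^ (i + 1) := pow_le_pow_left₀ hy hyM _
    have h3 : 0 ≤ ((i : ℝ) + 1) * M ^ i * L := by positivity
    calc x ^ (i + 1 + 1) = x * x ^ (i + 1) := by ring
      _ ≤ x * (y ^ (i + 1) + ((i : ℝ) + 1) * M ^ i * L) := mul_le_mul_of_nonneg_left ih hx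
      _ = x * y ^ (i + 1) + x * (((i : ℝ) + 1) * M ^ i * L) := by ring
      _ ≤ (y + L) * y ^ (i + 1) + M * (((i : ℝ) + 1) * M ^ i * L) :=
          add_le_add (mul_le_mul_of_nonneg_right h h1) (mul_le_mul_of_nonneg_right hxM h3)
      _ = y ^ (i + 1 + 1) + L * y ^ (i + 1) + ((i : ℝ) + 1) * M ^ (i + 1) * L := by ring
      _ ≤ y ^ (i + 1 + 1) + L * M ^ (i + 1) + ((i : ℝ) + 1) * M ^ (i + 1) * L := by
          have := mul_le_mul_of_nonneg_left h2 hL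
          linarith
      _ = y ^ (i + 1 + 1) + (((i + 1 : ℕ) : ℝ) + 1) * M ^ (i + 1) * L := by
          push_cast
          ring

theorem powz {x y z w M L : ℝ} (hx : 0 ≤ x) (hy : 0 ≤ y) (hxM : x ≤ M) (hyM : y ≤ M) (hL : 0 ≤ L)
    (h : x ≤ y + L) (hw : 0 ≤ w) (hwM : w ≤ M) (hz : z ≤ w + L) (i : ℕ) :
    z * x ^ i ≤ w * y ^ i + ((i : ℝ) + 1) * M ^ i * L := by
  have hM : 0 ≤ M := hx.trans hxM
  rcases i with _ | i
  · simp only [pow_zero, mul_one, Nat.cast_zero, zero_add, one_mul]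
    exact hz
  · have h1 := powd hx hy hxM hyM hL h i
    have h2 : x ^ (i + 1) ≤ M ^ (i + 1) := pow_le_pow_left₀ hx hxM _
    have h3 : 0 ≤ ((i : ℝ) + 1) * M ^ i * L := by positivity
    calc z * x ^ (i + 1) ≤ (w + L) * x ^ (i + 1) := mul_le_mul_of_nonneg_right hz (by positivity)
      _ = w * x ^ (i + 1) + L * x ^ (i + 1) := by ring
      _ ≤ w * (y ^ (i + 1) + ((i : ℝ) + 1) * M ^ i * L) + L * M ^ (i + 1) :=
          add_le_add (mul_le_mul_of_nonneg_left h1 hw) (mul_le_mul_of_nonneg_left h2 hL)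
      _ = w * y ^ (i + 1) + w * (((i : ℝ) + 1) * M ^ i * L) + L * M ^ (i + 1) := by ring
      _ ≤ w * y ^ (i + 1) + M * (((i : ℝ) + 1) * M ^ i * L) + L * M ^ (i + 1) := by
          have := mul_le_mul_of_nonneg_right hwM h3
          linarith
      _ = w * y ^ (i + 1) + (((i + 1 : ℕ) : ℝ) + 1) * M ^ (i + 1) * L := by
          push_cast
          ring

theorem bdR (int : IntStmt) {n : ℕ} {f : ℝ → ℝ} (hn : 4 ≤ n) (hf : Adm f) {M : ℝ}
    (hfM : ∀ t : ℝ, 0 < t → t < 1 → f t ≤ M) {c : ℝ} (hc : 0 < c) (hc1 : c ≤ 1) :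
    RA n f c ≤ M ∧ RB n f c ≤ M := by
  obtain ⟨_, h1⟩ := int n f hn hf
  obtain ⟨h2, h3, _, _⟩ := h1 c hc.le hc1
  have hn' : (4 : ℝ) ≤ n := by exact_mod_cast hn
  have hrc : ∀ r ∈ Ioo (0 : ℝ) 1, 0 ≤ f (r * c) ∧ f (r * c) ≤ M := by
    intro r hr
    have a1 : 0 < r * c := mul_pos hr.1 hc
    have a2 : r * c < 1 := by nlinarith [hr.1, hr.2]
    exact ⟨hf.nonneg _ ⟨a1.le, a2.le⟩, hfM _ a1 a2⟩
  have hc0 : IntervalIntegrable (fun _ : ℝ => M) volume 0 1 := intervalIntegrable_const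
  have hcM : ∫ _ in (0 : ℝ)..1, M = M := by simp
  constructor
  · unfold RA
    rw [← hcM]
    refine (intervalIntegral.integral_mono_on_of_le_Ioo zero_le_one h2 hc0 ?_).trans (by simp)
    intro r hr
    have w1 : (1 - r ^ 2) ^ (((n : ℝ) - 2) / 2) ≤ 1 :=
      Real.rpow_le_one (by nlinarith [hr.1, hr.2]) (by nlinarith [hr.1]) (by linarith)
    calc (1 - r ^ 2) ^ (((n : ℝ) - 2) / 2) * f (r * c) ≤ 1 * f (r * c) :=
          mul_le_mul_of_nonneg_right w1 (hrc r hr).1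
      _ ≤ M := by rw [one_mul]; exact (hrc r hr).2
  · unfold RB
    rw [← hcM]
    refine (intervalIntegral.integral_mono_on_of_le_Ioo zero_le_one h3 hc0 ?_).trans (by simp)
    intro r hr
    have w1 : (1 - r ^ 2) ^ (((n : ℝ) - 4) / 2) ≤ 1 :=
      Real.rpow_le_one (by nlinarith [hr.1, hr.2]) (by nlinarith [hr.1]) (by linarith)
    have w0 : 0 ≤ (1 - r ^ 2) ^ (((n : ℝ) - 4) / 2) :=
      Real.rpow_nonneg (by nlinarith [hr.1, hr.2]) _
    have w2 : r ^ 2 * (1 - r ^ 2) ^ (((n : ℝ) - 4) / 2) ≤ 1 :=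
      mul_le_one₀ (by nlinarith [hr.1, hr.2]) w0 w1
    calc r ^ 2 * (1 - r ^ 2) ^ (((n : ℝ) - 4) / 2) * f (r * c) ≤ 1 * f (r * c) :=
          mul_le_mul_of_nonneg_right w2 (hrc r hr).1
      _ ≤ M := by rw [one_mul]; exact (hrc r hr).2

/-- the final elementary step -/
theorem fin_step {K B p q e gp gq : ℝ} (hK : 0 ≤ K) (hp : 0 ≤ p) (hpq : p ≤ q)
    (hq : K * q ^ 2 ≤ 1 / 2) (hB : 2 * K ≤ B) (he : 1 ≤ e) (hgp : 0 ≤ gp)
    (hg : gp * (1 - K * (q ^ 2 - p ^ 2)) ≤ gq) :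
    (1 + B * p ^ 2) ^ e * gp ≤ (1 + B * q ^ 2) ^ e * gq := by
  have hB0 : 0 ≤ B := by linarith
  have hD : 0 ≤ q ^ 2 - p ^ 2 := by nlinarith
  have hP : 0 < 1 + B * p ^ 2 := by positivity
  have hQ : 0 < 1 + B * q ^ 2 := by positivity
  have hPQ : 1 ≤ (1 + B * q ^ 2) / (1 + B * p ^ 2) := by
    rw [le_div_iff₀ hP]
    nlinarith
  have h1 : (1 + B * q ^ 2) / (1 + B * p ^ 2) ≤ ((1 + B * q ^ 2) / (1 + B * p ^ 2)) ^ e :=
    Real.self_le_rpow_of_one_le hPQ he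
  have h2 : (1 + B * q ^ 2) ^ e = (1 + B * p ^ 2) ^ e * ((1 + B * q ^ 2) / (1 + B * p ^ 2)) ^ e := by
    rw [← Real.mul_rpow hP.le (by positivity), mul_div_cancel₀ _ hP.ne']
  have hKD : K * (q ^ 2 - p ^ 2) ≤ 1 / 2 := by nlinarith [sq_nonneg p]
  have hgq : 0 ≤ gq := le_trans (mul_nonneg hgp (by linarith)) hg
  have h3 : 1 ≤ (1 + B * q ^ 2) / (1 + B * p ^ 2) * (1 - K * (q ^ 2 - p ^ 2)) := by
    rw [div_mul_eq_mul_div, le_div_iff₀ hP]
    have h4 : 0 ≤ (q ^ 2 - p ^ 2) * (B * (1 - K * q ^ 2) - K) := by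
      refine mul_nonneg hD ?_
      nlinarith
    nlinarith
  have hPe : 0 ≤ (1 + B * p ^ 2) ^ e := Real.rpow_nonneg hP.le _
  rw [h2, mul_assoc]
  refine mul_le_mul_of_nonneg_left ?_ hPe
  calc gp = 1 * gp := (one_mul _).symm
    _ ≤ (1 + B * q ^ 2) / (1 + B * p ^ 2) * (1 - K * (q ^ 2 - p ^ 2)) * gp :=
        mul_le_mul_of_nonneg_right h3 hgp
    _ = (1 + B * q ^ 2) / (1 + B * p ^ 2) * (gp * (1 - K * (q ^ 2 - p ^ 2))) := by ring
    _ ≤ (1 + B * q ^ 2) / (1 + B * p ^ 2) * gq := mul_le_mul_of_nonneg_left hg (by positivity)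
    _ ≤ ((1 + B * q ^ 2) / (1 + B * p ^ 2)) ^ e * gq := mul_le_mul_of_nonneg_right h1 hgq

theorem loc (int : IntStmt) (_crc : CrcStmt) (_ant : AntStmt) (lpa : LpaStmt) (lpb : LpbStmt) :
    LocStmt := by
  intro n i C1 C2 M h t0 hn hi hin hC1 hC2 hM hh ht0 ht0'
  obtain ⟨j, rfl⟩ : ∃ j, i = j + 1 := ⟨i - 1, by omega⟩
  set L : ℝ := ((j : ℝ) + 1) * M ^ j * (n * M) with hL
  have hL0 : 0 ≤ L := by positivity
  set K : ℝ := (C1 + C2) * 2 ^ (j + 3) * L / (C1 * h ^ (j + 1)) with hKdef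
  have hK : 0 ≤ K := by positivity
  refine ⟨t0 / (1 + 2 * K), 2 * K, by positivity, ?_, by positivity, ?_⟩
  · rw [div_le_iff₀ (by positivity)]
    nlinarith
  intro f hf hfM hfh B hB p hp q hq hpq
  have ht1 : t0 / (1 + 2 * K) ≤ t0 := by
    rw [div_le_iff₀ (by positivity)]
    nlinarith
  have hp0 : 0 ≤ p := hp.1
  have hq0 : 0 ≤ q := hq.1
  have hq2 : q ≤ 1 / 2 := hq.2.trans (ht1.trans ht0')
  have hp2 : p ≤ 1 / 2 := hpq.trans hq2
  have hpt : p ≤ t0 := hp.2.trans ht1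
  have hKq : K * q ^ 2 ≤ 1 / 2 := by
    have h1 : q * (1 + 2 * K) ≤ 1 / 2 := by
      have := hq.2
      rw [le_div_iff₀ (by positivity)] at this
      linarith
    have h2 : K * q ≤ 1 / 2 := by nlinarith
    nlinarith
  -- the radii
  have hc : ∀ t : ℝ, 0 ≤ t → t ≤ 1 / 2 → 1 / 2 ≤ Real.sqrt (1 - t ^ 2) ∧
      Real.sqrt (1 - t ^ 2) ≤ 1 := by
    intro t ht ht'
    constructor
    · apply Real.le_sqrt_of_sq_le
      nlinarith
    · rw [Real.sqrt_le_one]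
      nlinarith
  obtain ⟨cp1, cp2⟩ := hc p hp0 hp2
  obtain ⟨cq1, cq2⟩ := hc q hq0 hq2
  have hcc : Real.sqrt (1 - q ^ 2) ≤ Real.sqrt (1 - p ^ 2) := Real.sqrt_le_sqrt (by nlinarith)
  have hlpa := lpa n M p q f hn hM hf hfM hp0 hpq hq2
  have hlpb := lpb n M p q f hn hM hf hfM hp0 hpq hq2
  have hh' := hfh p hp0 hpt
  obtain ⟨Ap, Bp⟩ := bdR int hn hf hfM (lt_of_lt_of_le (by norm_num) cp1) cp2
  obtain ⟨Aq, Bq⟩ := bdR int hn hf hfM (lt_of_lt_of_le (by norm_num) cq1) cq2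
  obtain ⟨_, _, Ap0, Bp0⟩ := (int n f hn hf).2 _ (le_trans (by norm_num) cp1) cp2
  obtain ⟨_, _, Aq0, Bq0⟩ := (int n f hn hf).2 _ (le_trans (by norm_num) cq1) cq2
  unfold El TT
  set cp := Real.sqrt (1 - p ^ 2) with hcp
  set cq := Real.sqrt (1 - q ^ 2) with hcq
  set ap := RA n f cp with hap
  set aq := RA n f cq with haq
  set bp := RB n f cp with hbp
  set bq := RB n f cq with hbq
  clear_value cp cq ap aq bp bq
  have cp0 : 0 < cp := by linarith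
  have cq0 : 0 < cq := by linarith
  have hD : 0 ≤ q ^ 2 - p ^ 2 := by nlinarith
  set D := q ^ 2 - p ^ 2 with hDdef
  have hN : 0 ≤ (n : ℝ) * M * D := by positivity
  -- Y = c RA, Z = c ^ 3 RB
  have hYp0 : 0 ≤ cp * ap := by positivity
  have hYq0 : 0 ≤ cq * aq := by positivity
  have hYp : cp * ap ≤ M := (mul_le_of_le_one_left Ap0 cp2).trans Ap
  have hYq : cq * aq ≤ M := (mul_le_of_le_one_left Aq0 cq2).trans Aq
  have hZq0 : 0 ≤ cq ^ 3 * bq := by positivity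
  have hc3 : cq ^ 3 ≤ 1 := pow_le_one₀ cq0.le cq2
  have hZq : cq ^ 3 * bq ≤ M := (mul_le_of_le_one_left Bq0 hc3).trans Bq
  have k1 := powd hYp0 hYq0 hYp hYq hN hlpa j
  have k2 := powz hYp0 hYq0 hYp hYq hN hlpa hZq0 hZq hlpb j
  have hLD : ((j : ℝ) + 1) * M ^ j * (n * M * D) = L * D := by rw [hL]; ring
  rw [hLD] at k1 k2
  have hLD0 : 0 ≤ L * D := by positivity
  -- in terms of the inverses
  have hap' : ap ^ (j + 1) = (cp⁻¹) ^ (j + 1) * (cp * ap) ^ (j + 1) := by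
    rw [← mul_pow, inv_mul_cancel_left₀ cp0.ne']
  have haq' : aq ^ (j + 1) = (cq⁻¹) ^ (j + 1) * (cq * aq) ^ (j + 1) := by
    rw [← mul_pow, inv_mul_cancel_left₀ cq0.ne']
  have hbp' : bp * ap ^ (j + 1 - 1) = (cp⁻¹) ^ (j + 3) * (cp ^ 3 * bp * (cp * ap) ^ j) := by
    have : (cp⁻¹) ^ (j + 3) = (cp⁻¹) ^ 3 * (cp⁻¹) ^ j := by ring
    rw [this, Nat.add_sub_cancel]
    have e1 : (cp⁻¹) ^ j * (cp * ap) ^ j = ap ^ j := by
      rw [← mul_pow, inv_mul_cancel_left₀ cp0.ne']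
    have e2 : (cp⁻¹) ^ 3 * (cp ^ 3 * bp) = bp := by
      rw [inv_pow, inv_mul_cancel_left₀ (pow_ne_zero 3 cp0.ne')]
    calc bp * ap ^ j = ((cp⁻¹) ^ 3 * (cp ^ 3 * bp)) * ((cp⁻¹) ^ j * (cp * ap) ^ j) := by
          rw [e1, e2]
      _ = _ := by ring
  have hbq' : bq * aq ^ (j + 1 - 1) = (cq⁻¹) ^ (j + 3) * (cq ^ 3 * bq * (cq * aq) ^ j) := by
    have : (cq⁻¹) ^ (j + 3) = (cq⁻¹) ^ 3 * (cq⁻¹) ^ j := by ring
    rw [this, Nat.add_sub_cancel]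
    have e1 : (cq⁻¹) ^ j * (cq * aq) ^ j = aq ^ j := by
      rw [← mul_pow, inv_mul_cancel_left₀ cq0.ne']
    have e2 : (cq⁻¹) ^ 3 * (cq ^ 3 * bq) = bq := by
      rw [inv_pow, inv_mul_cancel_left₀ (pow_ne_zero 3 cq0.ne')]
    calc bq * aq ^ j = ((cq⁻¹) ^ 3 * (cq ^ 3 * bq)) * ((cq⁻¹) ^ j * (cq * aq) ^ j) := by
          rw [e1, e2]
      _ = _ := by ring
  have hinv : cp⁻¹ ≤ cq⁻¹ := inv_anti₀ cq0 hcc
  have hi0 : 0 < cp⁻¹ := inv_pos.2 cp0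
  have hi2 : cq⁻¹ ≤ 2 := by
    rw [inv_le_comm₀ cq0 (by norm_num)]
    linarith
  have hq1 : 1 ≤ cq⁻¹ := (one_le_inv₀ cq0).2 cq2
  set gp := C1 * ap ^ (j + 1) + C2 * (bp * ap ^ (j + 1 - 1)) with hgp
  set gq := C1 * aq ^ (j + 1) + C2 * (bq * aq ^ (j + 1 - 1)) with hgq
  have hgp1 : C1 * h ^ (j + 1) ≤ gp := by
    have h1 : h ^ (j + 1) ≤ ap ^ (j + 1) := pow_le_pow_left₀ hh.le hh' _
    have h2 : 0 ≤ C2 * (bp * ap ^ (j + 1 - 1)) := by positivity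
    have h3 := mul_le_mul_of_nonneg_left h1 hC1.le
    linarith
  have hgp0 : 0 < gp := lt_of_lt_of_le (by positivity) hgp1
  -- the main comparison
  have m1 : C1 * ap ^ (j + 1) ≤ C1 * aq ^ (j + 1) + C1 * (2 ^ (j + 3) * (L * D)) := by
    have h1 : (cp⁻¹) ^ (j + 1) ≤ (cq⁻¹) ^ (j + 1) := pow_le_pow_left₀ hi0.le hinv _
    have h2 : (cq⁻¹) ^ (j + 1) ≤ 2 ^ (j + 3) :=
      (pow_le_pow_left₀ (by positivity) hi2 _).trans
        (pow_le_pow_right₀ (by norm_num) (by omega))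
    have h3 : ap ^ (j + 1) ≤ aq ^ (j + 1) + 2 ^ (j + 3) * (L * D) := by
      rw [hap', haq']
      calc (cp⁻¹) ^ (j + 1) * (cp * ap) ^ (j + 1) ≤ (cq⁻¹) ^ (j + 1) * (cp * ap) ^ (j + 1) :=
            mul_le_mul_of_nonneg_right h1 (by positivity)
        _ ≤ (cq⁻¹) ^ (j + 1) * ((cq * aq) ^ (j + 1) + L * D) :=
            mul_le_mul_of_nonneg_left k1 (by positivity)
        _ = (cq⁻¹) ^ (j + 1) * (cq * aq) ^ (j + 1) + (cq⁻¹) ^ (j + 1) * (L * D) := by ring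
        _ ≤ _ := by
            have := mul_le_mul_of_nonneg_right h2 hLD0
            linarith
    have := mul_le_mul_of_nonneg_left h3 hC1.le
    linarith
  have m2 : C2 * (bp * ap ^ (j + 1 - 1)) ≤
      C2 * (bq * aq ^ (j + 1 - 1)) + C2 * (2 ^ (j + 3) * (L * D)) := by
    have h1 : (cp⁻¹) ^ (j + 3) ≤ (cq⁻¹) ^ (j + 3) := pow_le_pow_left₀ hi0.le hinv _
    have h2 : (cq⁻¹) ^ (j + 3) ≤ 2 ^ (j + 3) := pow_le_pow_left₀ (by positivity) hi2 _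
    have h3 : bp * ap ^ (j + 1 - 1) ≤ bq * aq ^ (j + 1 - 1) + 2 ^ (j + 3) * (L * D) := by
      rw [hbp', hbq']
      calc (cp⁻¹) ^ (j + 3) * (cp ^ 3 * bp * (cp * ap) ^ j) ≤
            (cq⁻¹) ^ (j + 3) * (cp ^ 3 * bp * (cp * ap) ^ j) :=
            mul_le_mul_of_nonneg_right h1 (by positivity)
        _ ≤ (cq⁻¹) ^ (j + 3) * (cq ^ 3 * bq * (cq * aq) ^ j + L * D) :=
            mul_le_mul_of_nonneg_left k2 (by positivity)
        _ = (cq⁻¹) ^ (j + 3) * (cq ^ 3 * bq * (cq * aq) ^ j) + (cq⁻¹) ^ (j + 3) * (L * D) := by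
            ring
        _ ≤ _ := by
            have := mul_le_mul_of_nonneg_right h2 hLD0
            linarith
    have := mul_le_mul_of_nonneg_left h3 hC2
    linarith
  have m3 : gp * (1 - K * D) ≤ gq := by
    have h1 : (C1 + C2) * 2 ^ (j + 3) * L = K * (C1 * h ^ (j + 1)) := by
      rw [hKdef, div_mul_cancel₀ _ (by positivity)]
    have h2 : (C1 + C2) * (2 ^ (j + 3) * (L * D)) ≤ K * D * gp := by
      calc (C1 + C2) * (2 ^ (j + 3) * (L * D)) = ((C1 + C2) * 2 ^ (j + 3) * L) * D := by ring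
        _ = K * D * (C1 * h ^ (j + 1)) := by rw [h1]; ring
        _ ≤ K * D * gp := mul_le_mul_of_nonneg_left hgp1 (by positivity)
    have h3 : gp ≤ gq + (C1 + C2) * (2 ^ (j + 3) * (L * D)) := by
      rw [hgp, hgq]
      linarith
    have h4 : gp * (1 - K * D) = gp - K * D * gp := by ring
    rw [h4]
    linarith
  have hn' : (4 : ℝ) ≤ n := by exact_mod_cast hn
  have hfin := fin_step (e := ((n : ℝ) + 1) / 2) hK hp0 hpq hKq hB (by linarith) hgp0.le m3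
  have eB : 1 + B - 1 = B := by ring
  show (1 + (1 + B - 1) * p ^ 2) ^ (((n : ℝ) + 1) / 2) * gp ≤
    (1 + (1 + B - 1) * q ^ 2) ^ (((n : ℝ) + 1) / 2) * gq
  rw [eB]
  exact hfin

end Pool.Agent.REV.H95
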