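import Mathlib
import Pool.Agent.REV.StmtsG

/-!
# REV, row DEC (helper95): orthogonal decomposition of the volume
-/

set_option autoImplicit false

open MeasureTheory Module Set Filter
open scoped RealInnerProductSpace Pointwise Topology ENNReal

namespace Pool.Agent.REV.H95

open Pool.Agent.REV

section iso

variable {E X V : Type} [NormedAddCommGroup E] [InnerProductSpace ℝ E]
  [NormedAddCommGroup X] [InnerProductSpace ℝ X]
  [NormedAddCommGroup V] [InnerProductSpace ℝ V]

/-- the sum of two orthogonal isometries as a linear map -/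
noncomputable def lm (A : X →ₗᵢ[ℝ] E) (B : V →ₗᵢ[ℝ] E) : WithLp 2 (V × X) →ₗ[ℝ] E :=
  ((A.toLinearMap.comp (LinearMap.snd ℝ V X)) + (B.toLinearMap.comp (LinearMap.fst ℝ V X))).comp
    (WithLp.linearEquiv 2 ℝ (V × X)).toLinearMap

theorem lm_apply (A : X →ₗᵢ[ℝ] E) (B : V →ₗᵢ[ℝ] E) (p : WithLp 2 (V × X)) :
    lm A B p = A p.snd + B p.fst := rfl

theorem lm_norm (A : X →ₗᵢ[ℝ] E) (B : V →ₗᵢ[ℝ] E) (h : ∀ y z, ⟪A y, B z⟫ = 0)
    (p : WithLp 2 (V × X)) : ‖lm A B p‖ = ‖p‖ := by
  have h1 : ‖lm A B p‖ ^ 2 = ‖p‖ ^ 2 := by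
    rw [lm_apply, norm_add_sq_real, h, WithLp.prod_norm_sq_eq_of_L2, A.norm_map, B.norm_map]
    ring
  exact (pow_left_inj₀ (norm_nonneg _) (norm_nonneg _) two_ne_zero).1 h1

end iso

theorem dec : DecStmt := by
  intro E X V _ _ _ _ _ _ _ _ _ _ _ _ _ _ _ A B hAB hdim F hF
  let e0 : WithLp 2 (V × X) →ₗᵢ[ℝ] E := ⟨lm A B, lm_norm A B hAB⟩
  have hfin : finrank ℝ (WithLp 2 (V × X)) = finrank ℝ E := by
    rw [(WithLp.linearEquiv 2 ℝ (V × X)).finrank_eq, finrank_prod, ← hdim, add_comm]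
  let e : WithLp 2 (V × X) ≃ₗᵢ[ℝ] E := e0.toLinearIsometryEquiv hfin
  have he : ∀ p, e p = A p.snd + B p.fst := fun p => rfl
  have hme : MeasurePreserving e := e.measurePreserving
  have hmt : MeasurePreserving (MeasurableEquiv.toLp 2 (V × X)) :=
    (WithLp.volume_preserving_symm_measurableEquiv_toLp_prod V X).symm
  have hemb : MeasurableEmbedding e := e.toHomeomorph.measurableEmbedding
  have h1 : ∫ x, F x = ∫ p, F (e p) := (hme.integral_comp hemb F).symm
  have h2 : ∫ p, F (e p) = ∫ q : V × X, F (e (MeasurableEquiv.toLp 2 (V × X) q)) :=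
    (hmt.integral_comp (MeasurableEquiv.toLp 2 (V × X)).measurableEmbedding (fun p => F (e p))).symm
  have hint : Integrable (fun q : V × X => F (e (MeasurableEquiv.toLp 2 (V × X) q))) := by
    have h3 : Integrable (fun p => F (e p)) := hme.integrable_comp_of_integrable hF
    exact hmt.integrable_comp_of_integrable h3
  rw [h1, h2, Measure.volume_eq_prod, integral_prod _ hint]
  rfl

end Pool.Agent.REV.H95
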