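import Mathlib
import Pool.Agent.REV.StmtsU

/-!
# REV, row RCT (helper95): continuity of `RA` and `RB`
-/

set_option autoImplicit false

open MeasureTheory Set Filter Topology

namespace Pool.Agent.REV.H95

open Pool.Agent.REV

theorem cont_w {w f : ℝ → ℝ} (hw : Measurable w) (hw1 : ∀ r ∈ Ioc (0 : ℝ) 1, |w r| ≤ 1)
    (hf : Measurable f) {C : ℝ} (hC : ∀ t, |f t| ≤ C) (hc : ContinuousOn f (Ico 0 1)) :
    ContinuousOn (fun c : ℝ => ∫ r in (0 : ℝ)..1, w r * f (r * c)) (Icc 0 1) := by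
  intro c hcI
  have hC0 : 0 ≤ C := (abs_nonneg _).trans (hC 0)
  refine intervalIntegral.continuousWithinAt_of_dominated_interval (bound := fun _ => C) ?_ ?_ ?_ ?_
  · refine Eventually.of_forall (fun x => ?_)
    exact (hw.mul (hf.comp (measurable_id.mul_const x))).aestronglyMeasurable
  · refine Eventually.of_forall (fun x => ?_)
    refine Eventually.of_forall (fun r hr => ?_)
    rw [uIoc_of_le zero_le_one] at hr
    rw [Real.norm_eq_abs, abs_mul]
    calc |w r| * |f (r * x)| ≤ 1 * C := mul_le_mul (hw1 r hr) (hC _) (abs_nonneg _) zero_le_one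
      _ = C := one_mul _
  · exact intervalIntegrable_const
  · have h1 : ∀ᵐ r : ℝ ∂volume, r ≠ 1 := by
      rw [ae_iff]
      simp
    filter_upwards [h1] with r hr1 hr
    rw [uIoc_of_le zero_le_one] at hr
    have hr' : r < 1 := lt_of_le_of_ne hr.2 hr1
    have hmem : ∀ x ∈ Icc (0 : ℝ) 1, r * x ∈ Ico (0 : ℝ) 1 := by
      intro x hx
      constructor
      · exact mul_nonneg hr.1.le hx.1
      · calc r * x ≤ r * 1 := mul_le_mul_of_nonneg_left hx.2 hr.1.le
          _ < 1 := by rw [mul_one]; exact hr'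
    have h2 : ContinuousWithinAt (fun x => f (r * x)) (Icc 0 1) c :=
      (hc _ (hmem c hcI)).comp (t := Ico 0 1)
        ((continuous_const.mul continuous_id).continuousWithinAt) hmem
    exact continuousWithinAt_const.mul h2

theorem wA (n : ℕ) (hn : 4 ≤ n) : Measurable (fun r : ℝ => (1 - r ^ 2) ^ (((n : ℝ) - 2) / 2)) ∧
    ∀ r ∈ Ioc (0 : ℝ) 1, |(1 - r ^ 2) ^ (((n : ℝ) - 2) / 2)| ≤ 1 := by
  have hn' : (4 : ℝ) ≤ n := by exact_mod_cast hn
  constructor
  · exact (measurable_const.sub (measurable_id.pow_const 2)).pow_const _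
  · intro r hr
    have h0 : 0 ≤ 1 - r ^ 2 := by nlinarith [hr.1, hr.2]
    rw [abs_of_nonneg (Real.rpow_nonneg h0 _)]
    exact Real.rpow_le_one h0 (by nlinarith [sq_nonneg r]) (by linarith)

theorem wB (n : ℕ) (hn : 4 ≤ n) :
    Measurable (fun r : ℝ => r ^ 2 * (1 - r ^ 2) ^ (((n : ℝ) - 4) / 2)) ∧
    ∀ r ∈ Ioc (0 : ℝ) 1, |r ^ 2 * (1 - r ^ 2) ^ (((n : ℝ) - 4) / 2)| ≤ 1 := by
  have hn' : (4 : ℝ) ≤ n := by exact_mod_cast hn
  constructor
  · exact (measurable_id.pow_const 2).mul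
      ((measurable_const.sub (measurable_id.pow_const 2)).pow_const _)
  · intro r hr
    have h0 : 0 ≤ 1 - r ^ 2 := by nlinarith [hr.1, hr.2]
    rw [abs_of_nonneg (mul_nonneg (sq_nonneg r) (Real.rpow_nonneg h0 _))]
    exact mul_le_one₀ (by nlinarith [hr.1, hr.2]) (Real.rpow_nonneg h0 _)
      (Real.rpow_le_one h0 (by nlinarith [sq_nonneg r]) (by linarith))

theorem rct : RctStmt := by
  intro n f hn
  have first : ∀ g : ℝ → ℝ, Measurable g → (∃ C, ∀ t, |g t| ≤ C) → ContinuousOn g (Ico 0 1) →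
      ContinuousOn (RA n g) (Icc 0 1) ∧ ContinuousOn (RB n g) (Icc 0 1) := by
    intro g hg hC hc
    obtain ⟨C, hC⟩ := hC
    exact ⟨cont_w (wA n hn).1 (wA n hn).2 hg hC hc, cont_w (wB n hn).1 (wB n hn).2 hg hC hc⟩
  refine ⟨first f, fun hf => ?_⟩
  set g : ℝ → ℝ := fun t => f (max 0 (min t 1)) with hg
  have hgc : Continuous g := hf.comp_continuous (by fun_prop)
    (fun t => ⟨le_max_left _ _, max_le zero_le_one (min_le_right _ _)⟩)
  obtain ⟨C, hC⟩ := isCompact_Icc.exists_bound_of_continuousOn hf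
  have hgC : ∀ t, |g t| ≤ C := fun t =>
    hC _ ⟨le_max_left _ _, max_le zero_le_one (min_le_right _ _)⟩
  have hgf : ∀ t ∈ Icc (0 : ℝ) 1, f t = g t := by
    intro t ht
    show f t = f (max 0 (min t 1))
    rw [min_eq_left ht.2, max_eq_right ht.1]
  have hmem : ∀ c ∈ Icc (0 : ℝ) 1, ∀ r ∈ uIcc (0 : ℝ) 1, r * c ∈ Icc (0 : ℝ) 1 := by
    intro c hc r hr
    rw [uIcc_of_le zero_le_one] at hr
    exact ⟨mul_nonneg hr.1 hc.1, mul_le_one₀ hr.2 hc.1 hc.2⟩
  obtain ⟨h1, h2⟩ := first g hgc.measurable ⟨C, hgC⟩ hgc.continuousOn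
  constructor
  · refine h1.congr (fun c hc => ?_)
    unfold RA
    refine intervalIntegral.integral_congr (fun r hr => ?_)
    show _ * f (r * c) = _ * g (r * c)
    rw [hgf _ (hmem c hc r hr)]
  · refine h2.congr (fun c hc => ?_)
    unfold RB
    refine intervalIntegral.integral_congr (fun r hr => ?_)
    show _ * f (r * c) = _ * g (r * c)
    rw [hgf _ (hmem c hc r hr)]

end Pool.Agent.REV.H95
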